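import Pool.Agent.X76.JoinHad3

/-!
MP_b47bfb_co: joins.  The off-by-one form passes to joins, so that a smallest counterexample has a
connected complement; Hadwiger's conjecture itself holds, with no hypothesis, for balanced joins
and for every lexicographic product `H[G]` with `χ(H) = ω(H) ≥ 2`.
-/

set_option autoImplicit false

namespace Pool.Agent.Results.MP_b47bfb_co.JoinClosure

/-- `K_k` is a minor of `G`: there are `k` pairwise disjoint vertex sets, each inducing a connected
subgraph, any two of them joined by an edge of `G`. -/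
def HasCliqueMinor {V : Type} (G : SimpleGraph V) (k : ℕ) : Prop :=
  ∃ f : Fin k → Set V,
    (∀ i, (G.induce (f i)).Connected) ∧
    (∀ i j, i ≠ j → Disjoint (f i) (f j)) ∧
    (∀ i j, i ≠ j → ∃ u ∈ f i, ∃ v ∈ f j, G.Adj u v)

/-- Hadwiger's conjecture holds for `G`: if `G` is not `k`-colourable then `K_{k+1}` is a minor
of `G`. -/
def Hadwiger {V : Type} (G : SimpleGraph V) : Prop :=
  ∀ k : ℕ, ¬ G.Colorable k → HasCliqueMinor G (k + 1)

/-- Q1 holds for `G`: if `G` is not `k`-colourable then `K_k` is a minor of `G`. -/
def OffByOne {V : Type} (G : SimpleGraph V) : Prop :=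
  ∀ k : ℕ, ¬ G.Colorable k → HasCliqueMinor G k

/-- The lexicographic product `H[G]`: every vertex of `H` is replaced by a copy of `G`. -/
def Lex {W V : Type} (H : SimpleGraph W) (G : SimpleGraph V) : SimpleGraph (W × V) where
  Adj a b := H.Adj a.1 b.1 ∨ (a.1 = b.1 ∧ G.Adj a.2 b.2)
  symm := ⟨fun a b h => by
    rcases h with h | ⟨h, h'⟩
    · exact Or.inl h.symm
    · exact Or.inr ⟨h.symm, h'.symm⟩⟩
  loopless := ⟨fun a h => by
    rcases h with h | ⟨_, h'⟩
    · exact H.irrefl h
    · exact G.irrefl h'⟩

/-- (1) Let the vertices of `G` be labelled so that vertices with different labels are adjacent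
(`G` is the join of its label classes).  If Q1 holds for every induced subgraph of every label
class, then it holds for `G`.
(2) Let `G` be a counterexample to Q1 for `k` such that Q1 holds for all its proper induced
subgraphs.  Then the complement of `G` is connected and `G` has at least `2 k + 1` vertices.
(3) Let `G` be vertex-critical (not `k`-colourable, but `k`-colourable after the removal of any
vertex), let `r` be the number of components of its complement and suppose that
`2 (|C| - 1) ≤ |V| - r` for every component `C`.  Then `K_{k+1}` is a minor of `G`.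
(4) Hadwiger's conjecture holds for the lexicographic product `H[G]` of every graph `H` with
`χ(H) = ω(H) = r ≥ 2` and every finite graph `G`; for instance for the join of two or more copies of
any graph `G`. -/
theorem result :
    (∀ (V ι : Type) [Fintype V] (G : SimpleGraph V) (c : V → ι),
      (∀ u v, c u ≠ c v → G.Adj u v) →
      (∀ U : Set V, (∀ x ∈ U, ∀ y ∈ U, c x = c y) → OffByOne (G.induce U)) → OffByOne G) ∧
    (∀ (V : Type) [Fintype V] (G : SimpleGraph V) (k : ℕ), ¬ G.Colorable k →
      ¬ HasCliqueMinor G k → (∀ U : Set V, U ≠ Set.univ → OffByOne (G.induce U)) →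
      Gᶜ.Connected ∧ 2 * k + 1 ≤ Fintype.card V) ∧
    (∀ (V : Type) [Fintype V] (G : SimpleGraph V) (k : ℕ),
      (∀ v, (G.induce {v}ᶜ).Colorable k) → ¬ G.Colorable k →
      (∀ C : Gᶜ.ConnectedComponent,
        2 * C.supp.ncard + Nat.card Gᶜ.ConnectedComponent ≤ Fintype.card V + 2) →
      HasCliqueMinor G (k + 1)) ∧
    (∀ (W V : Type) [Fintype V] (H : SimpleGraph W) (G : SimpleGraph V) (r : ℕ), 2 ≤ r →
      H.Colorable r → ¬ H.CliqueFree r → Hadwiger (Lex H G)) := by
  refine ⟨?_, ?_, ?_, ?_⟩
  · intro V ι _ G c hc h
    exact X76.JoinHad.closure G c hc h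
  · intro V _ G k h1 h2 hmin
    exact X76.JoinHad.min_conn G k h1 h2 hmin
  · intro V _ G k hcol h1 hbal
    exact X76.JoinHad.balanced G k hcol h1 hbal
  · intro W V _ H G r hr hH hcl
    exact X76.JoinHad.lex_hadw H G r hr hH hcl

end Pool.Agent.Results.MP_b47bfb_co.JoinClosure
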