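import Pool.Agent.X76.JoinHad5

/-!
MP_b47bfb_co: the graphs all of whose induced subgraphs satisfy Q1 are closed under substitution
into perfect graphs and contain all graphs with `χ ≤ ω + 2` for every induced subgraph.
-/

set_option autoImplicit false

namespace Pool.Agent.Results.MP_b47bfb_co.PerfectSubstitution

/-- `K_k` is a minor of `G`: there are `k` pairwise disjoint vertex sets, each inducing a connected
subgraph, any two of them joined by an edge of `G`. -/
def HasCliqueMinor {V : Type} (G : SimpleGraph V) (k : ℕ) : Prop :=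
  ∃ f : Fin k → Set V,
    (∀ i, (G.induce (f i)).Connected) ∧
    (∀ i j, i ≠ j → Disjoint (f i) (f j)) ∧
    (∀ i j, i ≠ j → ∃ u ∈ f i, ∃ v ∈ f j, G.Adj u v)

/-- Q1 holds for `G`: if `G` is not `k`-colourable then `K_k` is a minor of `G`. -/
def OffByOne {V : Type} (G : SimpleGraph V) : Prop :=
  ∀ k : ℕ, ¬ G.Colorable k → HasCliqueMinor G k

/-- Every induced subgraph of `H` satisfies `χ ≤ ω + d`: if it has no clique with `m + 1` vertices
then it can be coloured with `m + d` colours.  For `d = 0` this says that `H` is perfect. -/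
def ChiOmega {W : Type} (H : SimpleGraph W) (d : ℕ) : Prop :=
  ∀ (U : Set W) (m : ℕ), (H.induce U).CliqueFree (m + 1) → (H.induce U).Colorable (m + d)

/-- (1) Let the vertices of `G` be labelled by the vertices of a perfect graph `H` so that two
vertices with different labels are adjacent exactly when their labels are adjacent (`G` arises from
`H` by substituting the label classes for the vertices).  If Q1 holds for every induced subgraph of
every label class, then it holds for `G`.
(2) Q1 holds for every graph all of whose induced subgraphs satisfy `χ ≤ ω + 2`; and for the graphs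
obtained by substituting such graphs for the vertices of a perfect graph.
(3) If all induced subgraphs of `G` satisfy `χ ≤ ω + d + 1` and `G` is not `(k + d)`-colourable then
`K_{k+1}` is a minor of `G`.
(4) If `G` is not `k`-colourable, but `k`-colourable after the removal of any vertex, and `K` is a
clique which does not contain all vertices, then `G` has a clique minor of order `|K| + 1`. -/
theorem result :
    (∀ (V W : Type) [Fintype V] [Fintype W] (G : SimpleGraph V) (H : SimpleGraph W) (c : V → W),
      (∀ u v, c u ≠ c v → (G.Adj u v ↔ H.Adj (c u) (c v))) → ChiOmega H 0 →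
      (∀ U : Set V, (∀ x ∈ U, ∀ y ∈ U, c x = c y) → OffByOne (G.induce U)) → OffByOne G) ∧
    (∀ (V W : Type) [Fintype V] [Fintype W] (G : SimpleGraph V) (H : SimpleGraph W) (c : V → W),
      (∀ u v, c u ≠ c v → (G.Adj u v ↔ H.Adj (c u) (c v))) → ChiOmega H 0 →
      (∀ w, ChiOmega (G.induce {v | c v = w}) 2) → OffByOne G) ∧
    (∀ (V : Type) [Fintype V] (G : SimpleGraph V) (d k : ℕ), ChiOmega G (d + 1) →
      ¬ G.Colorable (k + d) → HasCliqueMinor G (k + 1)) ∧
    (∀ (V : Type) [Fintype V] (G : SimpleGraph V) (k : ℕ), ¬ G.Colorable k →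
      (∀ v, (G.induce {v}ᶜ).Colorable k) → ∀ K : Finset V, G.IsClique (K : Set V) →
      K ≠ Finset.univ → HasCliqueMinor G (K.card + 1)) := by
  have h1 : ∀ (V W : Type) [Fintype V] [Fintype W] (G : SimpleGraph V) (H : SimpleGraph W)
      (c : V → W), (∀ u v, c u ≠ c v → (G.Adj u v ↔ H.Adj (c u) (c v))) → ChiOmega H 0 →
      (∀ U : Set V, (∀ x ∈ U, ∀ y ∈ U, c x = c y) → OffByOne (G.induce U)) → OffByOne G := by
    intro V W _ _ G H c hc hH h
    exact X76.JoinHad.perf_closure G H c hc (fun U m hm => by simpa using hH U m hm) h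
  have h3 : ∀ (V : Type) [Fintype V] (G : SimpleGraph V), ChiOmega G 2 → OffByOne G := by
    intro V _ G hG k hk
    rcases Nat.eq_zero_or_pos k with rfl | hk0
    · exact ⟨fun i => i.elim0, fun i => i.elim0, fun i => i.elim0, fun i => i.elim0⟩
    · obtain ⟨j, rfl⟩ : ∃ j, k = j + 1 := ⟨k - 1, by omega⟩
      exact X76.JoinHad.near G 2 1 (le_refl _) hG j hk
  refine ⟨h1, ?_, ?_, ?_⟩
  · intro V W _ _ G H c hc hH h
    classical
    refine h1 V W G H c hc hH ?_
    intro U hU
    rcases Set.eq_empty_or_nonempty U with rfl | ⟨x, hx⟩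
    · intro k hk
      exfalso
      apply hk
      exact ⟨SimpleGraph.Coloring.mk (fun v => absurd v.2 (Set.notMem_empty _))
        (fun {v} => absurd v.2 (Set.notMem_empty _))⟩
    · -- `G[U]` is an induced subgraph of the label class of `x`
      let X : Set {v | c v = c x} := {v | v.1 ∈ U}
      have hXU : Subtype.val '' X = U := by
        ext y
        constructor
        · rintro ⟨z, hz, rfl⟩; exact hz
        · intro hy; exact ⟨⟨y, hU y hy x hx⟩, hy, rfl⟩
      rw [← hXU]
      refine X76.JoinHad.off_iso _ _ (X76.JoinHad.indIso G {v | c v = c x} X).symm ?_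
      apply h3
      intro Z m hZ
      have hX2 := h (c x) (Subtype.val '' Z) m
      have e := X76.JoinHad.indIso (G.induce {v | c v = c x}) X Z
      refine SimpleGraph.Colorable.of_hom e.symm.toHom (hX2 ?_)
      exact hZ.comap ⟨e.toCopy⟩
  · intro V _ G d k hG hk
    exact X76.JoinHad.near G (d + 1) d (le_refl _) hG k hk
  · intro V _ G k hk hcol K hK hne
    obtain ⟨x, hx⟩ : ∃ x, x ∉ K := by
      by_contra hcon
      push Not at hcon
      exact hne (Finset.eq_univ_iff_forall.2 hcon)
    exact X76.JoinHad.clique_succ G k hk hcol K hK x hx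

end Pool.Agent.Results.MP_b47bfb_co.PerfectSubstitution
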